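import Mathlib
import Pool.Agent.R188.Cen5

/-!
# MP_c6a450_an : invariant centers for a family of polygon maps

The plane is identified with `ℂ`; an `n`-gon is a map `P : ZMod n → ℂ` with `P i ≠ P (i + 1)`.
The theorem `result` at the end of the file shows that triangles have no invariant center, which
answers Q1 in the negative.
-/

open Filter Topology Set ContDiff

namespace Pool.Agent.Results.MP_c6a450_an.NoCenter

variable {n : ℕ}

/-- `P` is an `n`-gon: consecutive vertices are distinct. -/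
def IsNGon (P : ZMod n → ℂ) : Prop := ∀ i, P i ≠ P (i + 1)

/-- `q_t(P)_i = P_i + t (P_i - P_{i-1}) / |P_i - P_{i-1}|`. -/
noncomputable def q (t : ℝ) (P : ZMod n → ℂ) : ZMod n → ℂ :=
  fun i => P i + t * ((P i - P (i - 1)) / ‖P i - P (i - 1)‖)

/-- `r_t(P)_i = P_i + t (P_i - P_{i+1}) / |P_i - P_{i+1}|`. -/
noncomputable def r (t : ℝ) (P : ZMod n → ℂ) : ZMod n → ℂ :=
  fun i => P i + t * ((P i - P (i + 1)) / ‖P i - P (i + 1)‖)

/-- `FMap t R S`: the map `f_t` is defined at the `n`-gon `R` (that is, `t` is smaller than half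
of every side of `R`) and `f_t(R) = S`, i.e. `S = q_t(P)` for an `n`-gon `P` with `r_t(P) = R`. -/
def FMap (t : ℝ) (R S : ZMod n → ℂ) : Prop :=
  IsNGon R ∧ (∀ i, t < ‖R i - R (i + 1)‖ / 2) ∧ ∃ P, IsNGon P ∧ r t P = R ∧ q t P = S

/-- The vector field `ξ`. -/
noncomputable def xi (P : ZMod n → ℂ) : ZMod n → ℂ :=
  fun i => (1 / 2) * ((P i - P (i - 1)) / ‖P i - P (i - 1)‖
    - (P i - P (i + 1)) / ‖P i - P (i + 1)‖)

/-- `γ` restricted to the open interval `(a, b)` is a trajectory of `ξ` on `n`-gons. -/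
def IsTrajectory [NeZero n] (γ : ℝ → (ZMod n → ℂ)) (a b : ℝ) : Prop :=
  ∀ s ∈ Ioo a b, IsNGon (γ s) ∧ HasDerivAt γ (xi (γ s)) s

/-- `C`, defined on the dense open set `U` of `n`-gons, is an invariant center for `n`, of
smoothness class `C^k` (`k = ∞` in the question). -/
structure IsInvariantCenter (n : ℕ) [NeZero n] (k : WithTop ℕ∞) (U : Set (ZMod n → ℂ))
    (C : (ZMod n → ℂ) → ℂ) : Prop where
  ngon : ∀ P ∈ U, IsNGon P
  isOpen : IsOpen U
  dense : ∀ P, IsNGon P → P ∈ closure U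
  translate_inv : ∀ P ∈ U, ∀ v : ℂ, (P + fun _ => v) ∈ U
  flow_inv : ∀ γ a b, IsTrajectory γ a b → ∀ s ∈ Ioo a b, ∀ s' ∈ Ioo a b, γ s ∈ U → γ s' ∈ U
  map_inv : ∀ t : ℝ, 0 < t → ∀ R ∈ U, ∀ S, FMap t R S → S ∈ U
  smooth : ContDiffOn ℝ k C U
  translate : ∀ P ∈ U, ∀ v : ℂ, C (P + fun _ => v) = C P + v
  map_const : ∀ t : ℝ, 0 < t → ∀ R ∈ U, ∀ S, FMap t R S → C S = C R
  flow_const : ∀ γ a b, IsTrajectory γ a b → (∀ s ∈ Ioo a b, γ s ∈ U) →
    ∀ s ∈ Ioo a b, ∀ s' ∈ Ioo a b, C (γ s) = C (γ s')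

/-- The right triangle with vertices `0, 3, 4i`. -/
def rightTriangle : ZMod 3 → ℂ :=
  fun i => if i = 0 then 0 else if i = 1 then 3 else 4 * Complex.I

open Pool.Agent.R188.Cen in
theorem local_result {U : Set (ZMod 3 → ℂ)} (hUo : IsOpen U) (hU : ∀ P ∈ U, IsNGon P)
    (hX : rightTriangle ∈ closure U) {C : (ZMod 3 → ℂ) → ℂ} (hC : ContDiffOn ℝ 3 C U)
    (htr : ∀ P ∈ U, ∀ v : ℂ, (P + fun _ => v) ∈ U → C (P + fun _ => v) = C P + v)
    (hf : ∀ t : ℝ, 0 < t → ∀ R ∈ U, ∀ S ∈ U, FMap t R S → C S = C R) : False := by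
  have hX0 : rightTriangle = X0 := by
    apply eq_vec
    · rfl
    · show (3 : ℂ) = _
      apply Complex.ext <;> simp
    · show (4 * Complex.I : ℂ) = _
      apply Complex.ext <;> simp
  rw [hX0] at hX
  have hU' : U ⊆ Tri := hU
  refine no_center hUo hU' hX hC htr ?_
  intro P hP
  have hPT : P ∈ Tri := hU' hP
  have hq : ∀ t : ℝ, q t P = P + t • uu P := by
    intro t; funext i
    simp only [q, uu, NN, Pi.add_apply, Pi.smul_apply, Complex.real_smul]
  have hr : ∀ t : ℝ, r t P = P + t • ww P := by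
    intro t; funext i
    simp only [r, ww, NN, Pi.add_apply, Pi.smul_apply, Complex.real_smul]
  have e1 := (tendsto_line P (uu P)).eventually (hUo.mem_nhds hP)
  have e2 := (tendsto_line P (ww P)).eventually (hUo.mem_nhds hP)
  have e3 : ∀ᶠ t in 𝓝[>] (0:ℝ), ∀ i, t < ‖(P + t • ww P) i - (P + t • ww P) (i + 1)‖ / 2 := by
    rw [eventually_all]
    intro i
    have hc : ContinuousAt (fun t : ℝ => ‖(P + t • ww P) i - (P + t • ww P) (i + 1)‖ / 2 - t) 0 := by
      simp only [Pi.add_apply, Pi.smul_apply]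
      fun_prop
    have hpos : 0 < (fun t : ℝ => ‖(P + t • ww P) i - (P + t • ww P) (i + 1)‖ / 2 - t) 0 := by
      simp only [zero_smul, add_zero, sub_zero]
      have := norm_pos_iff.mpr (Tri_sub1 hPT i)
      positivity
    have := (hc.eventually (lt_mem_nhds hpos)).filter_mono
      (nhdsWithin_le_nhds (s := Ioi (0:ℝ)))
    filter_upwards [this] with t ht
    linarith
  filter_upwards [e1, e2, e3, self_mem_nhdsWithin] with t h1 h2 h3 h4
  refine hf t h4 _ h2 _ h1 ⟨hU _ h2, h3, P, hU P hP, hr t, hq t⟩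

/-- **Triangles have no invariant center.** The first part is the negation of the question, with
`n = 3`. The second part is the local form from which it follows: if `U` is an open set of
triangles whose closure contains the right triangle `0, 3, 4i`, there is no `C^3` map `C : U → ℂ`
which moves with the triangle under translations and satisfies `C (f_t P) = C P` for every
`t > 0` and every `P ∈ U` with `f_t P ∈ U`. -/
theorem result :
    (¬ ∃ U C, IsInvariantCenter 3 ∞ U C) ∧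
    (∀ U : Set (ZMod 3 → ℂ), IsOpen U → (∀ P ∈ U, IsNGon P) → rightTriangle ∈ closure U →
      ¬ ∃ C : (ZMod 3 → ℂ) → ℂ, ContDiffOn ℝ 3 C U ∧
        (∀ P ∈ U, ∀ v : ℂ, (P + fun _ => v) ∈ U → C (P + fun _ => v) = C P + v) ∧
        (∀ t : ℝ, 0 < t → ∀ R ∈ U, ∀ S ∈ U, FMap t R S → C S = C R)) := by
  refine ⟨?_, ?_⟩
  · rintro ⟨U, C, h⟩
    refine local_result h.isOpen h.ngon (h.dense _ ?_)
      (h.smooth.of_le (WithTop.coe_le_coe.mpr (le_top (a := (3 : ℕ∞)))))
      (fun P hP v _ => h.translate P hP v) (fun t ht R hR S _ hS => h.map_const t ht R hR S hS)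
    intro i
    rcases Pool.Agent.R188.Cen.zcases i with rfl | rfl | rfl
    · show (0:ℂ) ≠ 3
      norm_num
    · show (3:ℂ) ≠ 4 * Complex.I
      intro h; simpa using congrArg Complex.re h
    · show (4 * Complex.I : ℂ) ≠ 0
      simp
  · rintro U hUo hU hX ⟨C, hC, htr, hf⟩
    exact local_result hUo hU hX hC htr hf

end Pool.Agent.Results.MP_c6a450_an.NoCenter
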